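import Mathlib
import Pool.Agent.P.MP_f1a348_lc.PG.Math
import Pool.Agent.P.MP_f1a348_lc.PG.PT
import Pool.Agent.P.MP_f1a348_lc.PG.QTime

namespace Pool.Agent.P.MP_f1a348_lc.Old.ClassTwoIso

open scoped commutatorElement

open Classical in
/-- the multiplication table of a group whose elements are numbered by `e`: the bit number
`(a * N + b) * N + c` tells if `e a * e b = e c` -/
noncomputable def tableBits {G : Type} [Group G] {N : ℕ} (e : Fin N ≃ G) : List Bool :=
  List.ofFn fun x : Fin (N * N * N) => decide (e x.divNat.divNat * e x.divNat.modNat = e x.modNat)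

open Classical in
/-- One deterministic Turing machine decides isomorphism of groups of order `N`, prime exponent
`p ≥ 5` and nilpotency class at most two, given by their multiplication tables, in time
`N ^ O((log log N) ^ 2)`. -/
theorem result :
    ∃ (tm : Turing.FinTM2) (e₀ : tm.Γ tm.k₀ ≃ Bool) (e₁ : tm.Γ tm.k₁ ≃ Bool),
      (∀ k, Finite (tm.Γ k)) ∧ ∃ C : ℝ, ∀ p : ℕ, p.Prime → 5 ≤ p →
        ∀ (G H : Type) [Group G] [Group H],
          (∀ g : G, g ^ p = 1) → (∀ a b c : G, ⁅⁅a, b⁆, c⁆ = 1) →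
          (∀ g : H, g ^ p = 1) → (∀ a b c : H, ⁅⁅a, b⁆, c⁆ = 1) →
          ∀ (N : ℕ) (e : Fin N ≃ G) (e' : Fin N ≃ H), ∃ t : ℕ,
            (t : ℝ) ≤ C * (N : ℝ) ^ (C * Real.logb 2 (Real.logb 2 N) ^ 2) ∧
            Nonempty (Turing.TM2OutputsInTime tm ((tableBits e ++ tableBits e').map e₀.symm)
              (Option.some ([decide (Nonempty (G ≃* H))].map e₁.symm)) t) := by
  obtain ⟨M, hM, C, h⟩ := Pool.Agent.P.MP_f1a348_lc.PG.final Pool.Agent.P.MP_f1a348_lc.PG.pt_mainP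
    Pool.Agent.P.MP_f1a348_lc.PG.all_math
  exact ⟨M.tm, M.inputAlphabet, M.outputAlphabet, hM, C, fun p h1 h2 G H _ _ a b c d =>
    h p h1 h2 G H ⟨a, b⟩ ⟨c, d⟩⟩

end Pool.Agent.P.MP_f1a348_lc.Old.ClassTwoIso
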