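import Mathlib
import Pool.Agent.P.MP_f1a348_lc.GX.TPTOP

namespace Pool.Agent.P.MP_f1a348_lc.Old.GraphIso

open Pool.Agent.P.MP_f1a348_lc.TO

/-- One deterministic Turing machine, given the adjacency matrices of two simple graphs on `n`
vertices, decides in time `2 ^ O(log² n · loglog n)` if the graphs are isomorphic. -/
theorem result :
    ∃ (tm : Turing.FinTM2) (e₀ : tm.Γ tm.k₀ ≃ Bool) (e₁ : tm.Γ tm.k₁ ≃ Bool),
      (∀ k, Finite (tm.Γ k)) ∧ ∃ C : ℝ, ∀ (n : ℕ) (G H : SimpleGraph (Fin n)),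
        ∃ (t : ℕ) (b : Bool),
          (t : ℝ) ≤ 2 ^ (C * Real.logb 2 (n + 2) ^ 2 * Real.logb 2 (Real.logb 2 (n + 4))) ∧
          Nonempty (Turing.TM2OutputsInTime tm ((adjBits G ++ adjBits H).map e₀.symm)
            (Option.some ([b].map e₁.symm)) t) ∧
          (b = true ↔ Nonempty (G ≃g H)) :=
  Pool.Agent.P.MP_f1a348_lc.GX.gi_final

end Pool.Agent.P.MP_f1a348_lc.Old.GraphIso
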