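import Pool.Agent.P.MP_f1a348_lc.Gr.Main

set_option autoImplicit false

namespace Pool.Agent.P.MP_f1a348_lc.Old.GroupWL

open Pool.Agent.P.MP_f1a348_lc.Gr

theorem result (p : ℕ) (hp : p.Prime) (k : ℕ) :
    ∃ (G H : Type) (_ : Group G) (_ : Group H) (_ : Fintype G) (_ : Fintype H),
      Fintype.card G = p ^ (320 * k + 334) ∧ Fintype.card H = p ^ (320 * k + 334) ∧
      commutator G ≤ Subgroup.center G ∧ commutator H ≤ Subgroup.center H ∧
      (p ≠ 2 → (∀ x : G, x ^ p = 1) ∧ ∀ y : H, y ^ p = 1) ∧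
      IsEmpty (G ≃* H) ∧ ¬ GWLDistinguishes k G H := by
  have : Fact p.Prime := ⟨hp⟩
  obtain ⟨G, H, _, _, _, _, h1, h2, h3, h4, h5, h6, Good, hS⟩ := exists_groups p k
  exact ⟨G, H, _, _, _, _, h1, h2, h3, h4, h5, h6, hS.not_distinguishes le_rfl⟩

end Pool.Agent.P.MP_f1a348_lc.Old.GroupWL
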