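import Pool.Agent.P.MP_f1a348_lc.Gr.Latin

set_option autoImplicit false

namespace Pool.Agent.P.MP_f1a348_lc.Old.SrgWL

open Pool.Agent.P.MP_f1a348_lc.Tw Pool.Agent.P.MP_f1a348_lc.Gr

theorem result (k n : ℕ) (hn : n = 2 ^ (640 * k + 654)) :
    ∃ (V W : Type) (_ : Fintype V) (_ : Fintype W) (G : SimpleGraph V) (H : SimpleGraph W)
      (_ : DecidableRel G.Adj) (_ : DecidableRel H.Adj),
      G.IsSRGWith (n ^ 2) (3 * (n - 1)) n 6 ∧ H.IsSRGWith (n ^ 2) (3 * (n - 1)) n 6 ∧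
      IsEmpty (G ≃g H) ∧ ¬ WLDistinguishes k G H := by
  classical
  obtain ⟨G, H, _, _, _, _, h1, h2, -, -, -, h6, Good, hS⟩ := exists_groups 2 (2 * k + 1)
  have e : 320 * (2 * k + 1) + 334 = 640 * k + 654 := by ring
  rw [e, ← hn, ← Nat.card_eq_fintype_card] at h1 h2
  have h5 : 5 ≤ n := by
    rw [hn]
    calc 5 ≤ 2 ^ 3 := by norm_num
      _ ≤ _ := Nat.pow_le_pow_right (by norm_num) (by omega)
  obtain ⟨Good', hS'⟩ := hS.latin
  refine ⟨G × G, H × H, inferInstance, inferInstance, netGraph (tab G), netGraph (tab H),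
    inferInstance, inferInstance, isNet_tab.isSRG h1 (by omega), isNet_tab.isSRG h2 (by omega),
    ⟨fun ψ => ?_⟩, hS'.not_distinguishes le_rfl⟩
  obtain ⟨f⟩ := mulEquiv_of_iso (h1.trans h2.symm) (by omega) ψ
  exact h6.elim f

end Pool.Agent.P.MP_f1a348_lc.Old.SrgWL
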